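import Pool.Agent.H244.Zm14

/-!
# MP_a2a22c_al: nonlinear actions of the groups with the finite quotients of `SL_n(ℤ)`

Let `n ≥ 3` and let `Λ` be a finitely generated group all of whose finite quotients are quotients of
`SL_n(ℤ)`, for instance a group with the same finite quotients as `SL_n(ℤ)`, as in Q1.  We study the
`C¹` actions of the subgroups `Δ` of finite index of `Λ` on closed connected manifolds `M` which
commute with a map `f`.  If `f` is an Anosov diffeomorphism and the image is infinite then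
`dim M ≥ 2n`, as it is for `SL_n(ℤ)` itself; if `f` is any `C¹` map with a nondegenerate periodic
point, then `dim M ≥ n` and the derivative at this point has an eigenvalue of geometric
multiplicity at least `n`.
-/

set_option autoImplicit false

open scoped Manifold ContDiff Topology
open Set Filter Matrix

namespace Pool.Agent.Results.MP_a2a22c_al.CentralizersOfAnosovMaps

open Pool.Agent.H721R2 Pool.Agent.H789R2.AN Pool.Agent.H147R2.RI
open Pool.Agent.H244.Zm (gm)

/-- `Γ` acts on `M` by `C¹` maps which commute with `f`, and the image of `Γ` is infinite. -/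
structure InfiniteCommuting (E : Type) [NormedAddCommGroup E] [NormedSpace ℝ E] {M : Type}
    [TopologicalSpace M] [ChartedSpace E M] (f : M → M) {Γ : Type} [Group Γ]
    (α : Γ →* Equiv.Perm M) : Prop where
  smooth : ∀ γ, ContMDiff 𝓘(ℝ, E) 𝓘(ℝ, E) 1 (α γ)
  comm : ∀ γ x, α γ (f x) = f (α γ x)
  infinite : ¬ Finite α.range

/-- The derivative of `g` at the fixed point `p`, an endomorphism of the tangent space at `p`
(which is the space `E` in Mathlib). -/
noncomputable def der (E : Type) [NormedAddCommGroup E] [NormedSpace ℝ E] {M : Type}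
    [TopologicalSpace M] [ChartedSpace E M] (g : M → M) (p : M) : E →L[ℝ] E :=
  mfderiv 𝓘(ℝ, E) 𝓘(ℝ, E) g p

/-- All subspaces `V x` have dimension `d`. -/
def HasRank {E : Type} [NormedAddCommGroup E] [NormedSpace ℝ E] {M : Type} [TopologicalSpace M]
    [ChartedSpace E M] (V : ∀ x : M, Submodule ℝ (TangentSpace 𝓘(ℝ, E) x)) (d : ℕ) : Prop :=
  ∀ x, Module.finrank ℝ (V x) = d

/-- **Groups with the finite quotients of `SL_n(ℤ)` in the centralizers of maps.**
Let `n ≥ 3`, let `Λ` be a finitely generated group all of whose finite quotients are quotients of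
`SL_n(ℤ)`, `Δ` a subgroup of finite index of `Λ`, and `M` a closed connected smooth manifold.  Let
`α` be an action of `Δ` on `M` by `C¹` maps, with infinite image, which commutes with the map
`f : M → M`.  `gm A μ` is the geometric multiplicity of `μ` as an eigenvalue of `A`.

(1) If `f` is `C¹`, `fᵏ(p) = p` and `1` is not an eigenvalue of `A = D(fᵏ)(p)`, then `n ≤ dim M`, and
`A` has a complex eigenvalue of geometric multiplicity at least `n`.

(2) If `f` is a `C¹` Anosov diffeomorphism with splitting `TM = Es ⊕ Eu` of ranks `ds` and `du`, then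
`n ≤ ds` and `n ≤ du`; so `2n ≤ dim M`.  Suppose moreover that `f` is transitive.  Then at all
periodic points `p`, `fᵏ(p) = p`, `k ≥ 1`, the derivative `D(fᵏ)(p)` has eigenvalues of geometric
multiplicity at least `n`, of modulus less than one and of modulus greater than one.  If `ds = n` or
`du = n` and `f` is of class `C²`, then `f` is topologically conjugate to a hyperbolic infra-toral
automorphism, and the model space `E` covers `M`. -/
theorem result (n : ℕ) (hn : 3 ≤ n) (Λ : Type) [Group Λ] (hfg : Group.FG Λ)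
    (hΛ : ∀ (Q : Type) [Group Q] [Finite Q], (∃ f : Λ →* Q, Function.Surjective f) →
      ∃ f : SpecialLinearGroup (Fin n) ℤ →* Q, Function.Surjective f)
    (Δ : Subgroup Λ) (hΔ : Δ.FiniteIndex)
    (E : Type) [NormedAddCommGroup E] [NormedSpace ℝ E] [FiniteDimensional ℝ E]
    (M : Type) [TopologicalSpace M] [T2Space M] [CompactSpace M] [ConnectedSpace M]
    [ChartedSpace E M] [IsManifold 𝓘(ℝ, E) ∞ M] (α : Δ →* Equiv.Perm M) :
    (∀ (f : M → M) (k : ℕ) (p : M), InfiniteCommuting E f α → ContMDiff 𝓘(ℝ, E) 𝓘(ℝ, E) 1 f →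
      f^[k] p = p → (∀ v, der E (f^[k]) p v = v → v = 0) →
      n ≤ Module.finrank ℝ E ∧ ∃ μ : ℂ, n ≤ gm (der E (f^[k]) p).toLinearMap μ) ∧
    (∀ (f : Diffeomorph 𝓘(ℝ, E) 𝓘(ℝ, E) M M 1) (Es Eu) (ds du : ℕ), InfiniteCommuting E f α →
      IsAnosov f Es Eu → HasRank Es ds → HasRank Eu du →
      n ≤ ds ∧ n ≤ du ∧ 2 * n ≤ Module.finrank ℝ E ∧
      (TopTransitive f →
        (∀ (k : ℕ) (p : M), 1 ≤ k → f^[k] p = p →
          (∃ μ : ℂ, ‖μ‖ < 1 ∧ n ≤ gm (der E (f^[k]) p).toLinearMap μ) ∧
          ∃ μ : ℂ, 1 < ‖μ‖ ∧ n ≤ gm (der E (f^[k]) p).toLinearMap μ) ∧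
        (ds = n ∨ du = n → ContMDiff 𝓘(ℝ, E) 𝓘(ℝ, E) 2 f → ContMDiff 𝓘(ℝ, E) 𝓘(ℝ, E) 2 f.symm →
          InfraToral f ∧ ∃ q : E → M, IsCoveringMap q ∧ Function.Surjective q))) := by
  have hVP := Pool.Agent.N829.PR.vp_sub (Pool.Agent.N829.PR.vp hn hΛ hfg) Δ
  have hR : Pool.Agent.H244.Zm.SmallReps ℝ n Δ := ⟨hVP.1, fun H _ m hm ρ => hVP.2 H m hm ℝ ρ⟩
  have hC : Pool.Agent.H244.Zm.SmallReps ℂ n Δ := ⟨hVP.1, fun H _ m hm ρ => hVP.2 H m hm ℂ ρ⟩
  refine ⟨fun f k p hc hf hp hnd => ?_, fun f Es Eu ds du hc hA hds hdu => ?_⟩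
  · have h := Pool.Agent.H244.Zm.nondeg hn α hc.smooth (iter_smooth f hf k)
      (fun γ x => Pool.Agent.H244.Zm.comm_iter (σ := fun γ => α γ) hc.comm γ k x) hp hnd
      hc.infinite
    exact ⟨h.1 hR, h.2 hC⟩
  · obtain ⟨x⟩ : Nonempty M := inferInstance
    have h1 := Pool.Agent.H244.Zm.ranks f Es Eu hA hn hR α hc.smooth hc.comm hc.infinite x
    rw [hds x, hdu x] at h1
    refine ⟨h1.1, h1.2, ?_, fun htr => ⟨fun k p hk hp => ?_, fun h hf2 hf2' => ?_⟩⟩
    · by_contra hlt
      push Not at hlt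
      exact hc.infinite (Pool.Agent.H244.Zm.dim_lt f Es Eu hA hn hR α hc.smooth hc.comm hlt)
    · exact Pool.Agent.H244.Zm.anosov_geo f Es Eu hA htr hn hC α hc.smooth hc.comm hc.infinite
        hk hp
    · exact Pool.Agent.H244.Zm.toral f hf2 hf2' Es Eu hA htr hn hC α hc.smooth hc.comm
        hc.infinite ds du hds hdu h

end Pool.Agent.Results.MP_a2a22c_al.CentralizersOfAnosovMaps
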