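import Pool.Agent.H317.GH.All

/-!
# Homomorphisms between the groups in the genus of `SL(n, ℤ)`

The genus of `SL(n, ℤ)`, `n ≥ 3`, consists of the finitely generated residually finite groups with the same finite quotients. We show that
homomorphisms with infinite image between such groups are injective and induce isomorphisms of the profinite completions, that those from `SL(n, ℤ)` are isomorphisms, that
those to `SL(n, ℤ)` are unique up to automorphisms of `SL(n, ℤ)`, and that the representations of degree `n` with infinite image are unique up to conjugation and duality.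
-/

set_option autoImplicit false

namespace Pool.Agent.Results.MP_a2a22c_al.HomomorphismsInTheGenus

/-- `Λ` is a finitely generated residually finite group with the same finite quotients as `SL(n, ℤ)`. -/
def Genus (n : ℕ) (Λ : Type) [Group Λ] : Prop :=
  Group.FG Λ ∧ (∀ g : Λ, g ≠ 1 → ∃ H : Subgroup Λ, H.index ≠ 0 ∧ g ∉ H) ∧
  ∀ (Q : Type) [Group Q] [Finite Q], (∃ f : Λ →* Q, Function.Surjective f) ↔
    (∃ f : Matrix.SpecialLinearGroup (Fin n) ℤ →* Q, Function.Surjective f)

/-- Let `n ≥ 3`.

(1) A homomorphism `φ : Λ₁ → Λ₂` between two groups of the genus has finite image, or it is injective and every homomorphism from `Λ₁` to a finite group extends uniquely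
along `φ` (that is, `φ` induces an isomorphism of the profinite completions).

(2) Every homomorphism with infinite image from `SL(n, ℤ)` to a group of the genus is an isomorphism.

(3) Two homomorphisms with infinite image from a group of the genus to `SL(n, ℤ)` differ by an automorphism of `SL(n, ℤ)`.

(4) Two representations of degree `n` with infinite image of a group of the genus, over a field of characteristic zero, are conjugate, or one is conjugate to the
contragredient of the other. -/
theorem result (n : ℕ) (hn : 3 ≤ n) :
    (∀ (Λ₁ Λ₂ : Type) [Group Λ₁] [Group Λ₂], Genus n Λ₁ → Genus n Λ₂ → ∀ φ : Λ₁ →* Λ₂,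
      (Set.range φ).Finite ∨ (Function.Injective φ ∧
        ∀ (Q : Type) [Group Q] [Finite Q], Function.Bijective (fun v : Λ₂ →* Q => v.comp φ))) ∧
    (∀ (Λ : Type) [Group Λ], Genus n Λ → ∀ θ : Matrix.SpecialLinearGroup (Fin n) ℤ →* Λ,
      (Set.range θ).Infinite → Function.Bijective θ) ∧
    (∀ (Λ : Type) [Group Λ], Genus n Λ → ∀ φ φ' : Λ →* Matrix.SpecialLinearGroup (Fin n) ℤ,
      (Set.range φ).Infinite → (Set.range φ').Infinite →
        ∃ α : Matrix.SpecialLinearGroup (Fin n) ℤ ≃* Matrix.SpecialLinearGroup (Fin n) ℤ,
          ∀ g, φ' g = α (φ g)) ∧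
    (∀ (Λ : Type) [Group Λ], Genus n Λ → ∀ (F : Type) [Field F] [CharZero F]
      (τ τ' : Λ →* Matrix.GeneralLinearGroup (Fin n) F), (Set.range τ).Infinite →
        (Set.range τ').Infinite → ∃ P : Matrix.GeneralLinearGroup (Fin n) F,
          (∀ g, τ' g = P * τ g * P⁻¹) ∨
            ∀ g, (τ' g).val = P.val * (τ g⁻¹).val.transpose * (P⁻¹).val) :=
  Pool.Agent.H317.GH.t_final n hn

end Pool.Agent.Results.MP_a2a22c_al.HomomorphismsInTheGenus
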