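import Pool.Agent.H317.GR.All

/-!
# A nilpotent subgroup of class `n - 1` makes `SL(n, ℤ)` rigid

Let `n ≥ 3` and let `Λ` be a finitely generated residually finite group with the same finite quotients as `SL(n, ℤ)`. If `Λ` contains a nilpotent
subgroup `N` of class at most `n - 1` such that the last term `γ_{n-1}(N)` of the lower central series contains an element of infinite order
(for example a torsion-free nilpotent subgroup of class `n - 1`, such as the group of unitriangular integral matrices; or the Heisenberg group if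
`n = 3`), then `Λ` is isomorphic to `SL(n, ℤ)`. So in a counterexample to the profinite rigidity of `SL(n, ℤ)` the nilpotent subgroups have smaller class than in
`SL(n, ℤ)`.
-/

set_option autoImplicit false

namespace Pool.Agent.Results.MP_a2a22c_al.NilpotentSubgroup

/-- `N.lowerCentralSeries k` is the term `γ_{k+1}(N)` of the lower central series of the subgroup `N`. -/
theorem result (n : ℕ) (hn : 3 ≤ n) (Λ : Type) [Group Λ] (hfg : Group.FG Λ)
    (hrf : ∀ g : Λ, g ≠ 1 → ∃ H : Subgroup Λ, H.index ≠ 0 ∧ g ∉ H)
    (hq : ∀ (Q : Type) [Group Q] [Finite Q], (∃ f : Λ →* Q, Function.Surjective f) ↔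
      (∃ f : Matrix.SpecialLinearGroup (Fin n) ℤ →* Q, Function.Surjective f))
    (N : Subgroup Λ) (hN : N.lowerCentralSeries (n - 1) = ⊥)
    (c : Λ) (hc : c ∈ N.lowerCentralSeries (n - 2)) (hinf : ¬ IsOfFinOrder c) :
    Nonempty (Λ ≃* Matrix.SpecialLinearGroup (Fin n) ℤ) :=
  Pool.Agent.H317.GR.t_main n hn Λ hfg hrf hq ⟨N, hN, c, hc, hinf⟩

end Pool.Agent.Results.MP_a2a22c_al.NilpotentSubgroup
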