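import Pool.Agent.H317.GI.All

/-!
# Solvable subgroups and distorted elements of the groups in the genus of `SL(3, ℤ)`

Let `Λ` be a finitely generated residually finite group with the same finite quotients as `SL(3, ℤ)`. We show that `Λ` is isomorphic to `SL(3, ℤ)` if it contains a solvable
subgroup which is not virtually abelian, or a distorted element commuting with an element with which it has no common powers.
-/

set_option autoImplicit false

namespace Pool.Agent.Results.MP_a2a22c_al.SolvableSubgroups

/-- `Λ` is a finitely generated residually finite group with the same finite quotients as `SL(3, ℤ)`. -/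
def Genus (Λ : Type) [Group Λ] : Prop :=
  Group.FG Λ ∧ (∀ g : Λ, g ≠ 1 → ∃ H : Subgroup Λ, H.index ≠ 0 ∧ g ∉ H) ∧
  ∀ (Q : Type) [Group Q] [Finite Q], (∃ f : Λ →* Q, Function.Surjective f) ↔
    (∃ f : Matrix.SpecialLinearGroup (Fin 3) ℤ →* Q, Function.Surjective f)

/-- `x` is distorted: there is a finite set `S` such that for every `C` some power `x ^ k`, `k ≥ 1`, is a product of at most `k / C` elements of `S ∪ S⁻¹`. -/
def Distorted {G : Type} [Group G] (x : G) : Prop :=
  ∃ S : Finset G, ∀ C : ℕ, ∃ k : ℕ, 1 ≤ k ∧ ∃ l : List G,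
    (∀ s ∈ l, s ∈ S ∨ s⁻¹ ∈ S) ∧ l.prod = x ^ k ∧ C * l.length ≤ k

/-- Let `Λ` be a finitely generated residually finite group with the same finite quotients as `SL(3, ℤ)` which is not isomorphic to `SL(3, ℤ)`. Then

(1) every solvable subgroup of `Λ` has an abelian subgroup of finite index;

(2) if `x` is a distorted element of `Λ` then every element commuting with `x` has a common power with `x`. -/
theorem result (Λ : Type) [Group Λ] (hΛ : Genus Λ)
    (hne : ¬ Nonempty (Λ ≃* Matrix.SpecialLinearGroup (Fin 3) ℤ)) :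
    (∀ S : Subgroup Λ, Group.IsSolvable S →
      ∃ A : Subgroup Λ, A ≤ S ∧ A.relIndex S ≠ 0 ∧ ∀ x ∈ A, ∀ y ∈ A, x * y = y * x) ∧
    (∀ x y : Λ, Distorted x → x * y = y * x → ∃ a b : ℤ, (a ≠ 0 ∨ b ≠ 0) ∧ x ^ a = y ^ b) := by
  constructor
  · intro S hS
    by_contra hcon
    apply hne
    refine Pool.Agent.H317.GI.t_sol Λ hΛ S hS ?_
    intro A hA hA2 hA3
    exact hcon ⟨A, hA, hA2, hA3⟩
  · intro x y hx hxy
    by_contra hcon
    apply hne
    refine Pool.Agent.H317.GI.t_dis Λ hΛ x y hxy ?_ hx
    intro a b hab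
    by_contra h
    apply hcon
    refine ⟨a, b, ?_, hab⟩
    by_contra h2
    push Not at h2
    exact h h2

end Pool.Agent.Results.MP_a2a22c_al.SolvableSubgroups
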